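import Mathlib
import Pool.Agent.H645R3.VK8

set_option autoImplicit false

/-!
# Vojta's inequality on the projective line: points of degree `r` over a number field

`k` is a number field, `X = ℙ¹`, `D` a sum of `q` distinct `k`-rational points, `S` consists of
finitely many primes of `k` and all archimedean places of `k`; `s` is the number of its elements.
We count the algebraic points `x` of degree exactly `r` over `k` and absolute height at most
`exp T` whose proximity to `D` is at least `κ h(x) - c`.  For `κ = 2 + ε` these are the only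
points which can violate Vojta's inequality
`h_K(x) + ∑_{v ∈ S} λ_D(x, v) ≤ ε h_A(x) + d_k(x) + O(1)`, `h_K = - 2 h`, `h_A = h`.
-/

namespace Pool.Agent.Results.MP_71c16a_nt.PointsOfBoundedDegree

open NumberField IsDedekindDomain Height IntermediateField

/-- The local Weil function of the point `(a₁ : a₂)` at a place `v`, in terms of `u = |y|_v` and
`t = |a₁ - a₂ y|_v` (for a finite place the normalised absolute value, with local degree). -/
noncomputable def lam (u t : ℝ) : ℝ := Real.log (max 1 u / t)

/-- The proximity function `∑_{v ∈ S} λ_D(y, v)` of an element `y` of a finite extension `L` of the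
number field `k`, in absolute normalisation: the sum over all infinite places `v` of `L`
(with multiplicity) and over the finite places `w` of `L` above the primes in `S` (that is, with
`|x|_w < 1` for all `x ∈ p`, for some `p ∈ S`), divided by `[L : ℚ]`. -/
noncomputable def prox {k L : Type} [Field k] [NumberField k] [Field L] [NumberField L]
    [Algebra k L] (S : Finset (HeightOneSpectrum (𝓞 k))) (D : Finset (𝓞 k × 𝓞 k)) (y : L) : ℝ :=
  ((∑ v : InfinitePlace L, v.mult *
      ∑ a ∈ D, lam (v y) (v (algebraMap k L (a.1 : k) - algebraMap k L (a.2 : k) * y))) +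
    ∑ᶠ w ∈ {w : FinitePlace L | ∃ p ∈ S, ∀ x ∈ p.asIdeal, w (algebraMap k L (x : k)) < 1},
      ∑ a ∈ D, lam (w y) (w (algebraMap k L (a.1 : k) - algebraMap k L (a.2 : k) * y))) /
    Module.finrank ℚ L

variable {k : Type} [Field k] [NumberField k]

instance (x : AlgebraicClosure k) : FiniteDimensional k k⟮x⟯ :=
  adjoin.finiteDimensional (Algebra.IsIntegral.isIntegral x)

instance (x : AlgebraicClosure k) : NumberField k⟮x⟯ := NumberField.of_module_finite k k⟮x⟯

/-- The absolute logarithmic height of `x`, computed in `k(x)`. -/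
noncomputable def ht (x : AlgebraicClosure k) : ℝ :=
  logHeight₁ (AdjoinSimple.gen k x) / Module.finrank ℚ k⟮x⟯

/-- The points `x`, algebraic of degree `r` over `k`, with `h(x) ≤ T`, outside `D`, and with
`∑_{v ∈ S} λ_D(x, v) ≥ κ h(x) - c` (computed in `k(x)`). -/
def Near (r : ℕ) (S : Finset (HeightOneSpectrum (𝓞 k))) (D : Finset (𝓞 k × 𝓞 k)) (κ c T : ℝ) :
    Set (AlgebraicClosure k) :=
  {x | Module.finrank k k⟮x⟯ = r ∧ ht x ≤ T ∧
    (∀ a ∈ D, algebraMap k (AlgebraicClosure k) (a.1 : k) ≠
      algebraMap k (AlgebraicClosure k) (a.2 : k) * x) ∧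
    κ * ht x - c ≤ prox S D (AdjoinSimple.gen k x)}

/-- **Points of degree `r` with large proximity.**  Let `k` be a number field of degree `d`,
`r ≥ 1`, `S` a finite set of primes of `k`, `s` the number of primes in `S` plus the number of
archimedean places of `k`, `D` a set of `q` distinct points `(a₁ : a₂)` of `ℙ¹(k)` and
`0 ≤ κ ≤ r + 1`.  For all `c` and `δ > 0` there is `C` such that for every `T ≥ 0` there are at most
`C * exp ((d * r * (r + 1 - κ * min 1 ((r + 1) / min q (r * s))) + δ) * T)` points `x` of degree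
`r` over `k` and height `h(x) ≤ T` with `∑_{v ∈ S ∪ S_∞} λ_D(x, v) ≥ κ h(x) - c`. -/
theorem result (r : ℕ) (hr : 1 ≤ r) (S : Finset (HeightOneSpectrum (𝓞 k)))
    (D : Finset (𝓞 k × 𝓞 k)) (hD0 : ∀ a ∈ D, a ≠ (0, 0))
    (hD : ∀ a ∈ D, ∀ b ∈ D, a ≠ b → a.1 * b.2 ≠ a.2 * b.1) (κ : ℝ) (hκ : 0 ≤ κ)
    (hκ1 : κ ≤ r + 1) (c δ : ℝ) (hδ : 0 < δ) :
    ∃ C : ℝ, 0 < C ∧ ∀ T : ℝ, 0 ≤ T → (Near r S D κ c T).Finite ∧
      ((Near r S D κ c T).ncard : ℝ) ≤ C * Real.exp
        ((Module.finrank ℚ k * r * ((r + 1 : ℝ) - κ * min 1 ((r + 1 : ℝ) /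
          ((min D.card (r * (S.card + Fintype.card (InfinitePlace k))) : ℕ) : ℝ))) + δ) * T) :=
  H645.VK.main r hr S D hD0 hD κ hκ hκ1 c δ hδ

end Pool.Agent.Results.MP_71c16a_nt.PointsOfBoundedDegree
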